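import Pool.Agent.Y234.FP.Stm

/-! Job FP-NA: compatibility with change of rings (helper592). -/

set_option autoImplicit false

open MvPolynomial

namespace Pool.Agent.Y592.FP2

open Pool.Agent.Y234.FP

universe u

theorem fn_map {T T' : Type u} [CommRing T] [CommRing T'] (φ : T →+* T') (r m : ℕ)
    (β : Fin r → T) (i : Ix r m) (F : MvPolynomial (Fin (r + 2)) T) :
    fn m (fun i => φ (β i)) i (MvPolynomial.map φ F) = φ (fn m β i F) := by
  cases i with
  | inl u =>
    show coeff (toE u) (MvPolynomial.map φ F) = φ (coeff (toE u) F)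
    rw [coeff_map]
  | inr p =>
    show aeval (pt fun i => φ (β i)) (weightedHomogeneousComponent (wt r)
      (dg (Sum.inr p : Ix r m)) (MvPolynomial.map φ F)) =
        φ (aeval (pt β) (weightedHomogeneousComponent (wt r) (dg (Sum.inr p : Ix r m)) F))
    have h1 : weightedHomogeneousComponent (wt r) (dg (Sum.inr p : Ix r m))
        (MvPolynomial.map φ F) = MvPolynomial.map φ
          (weightedHomogeneousComponent (wt r) (dg (Sum.inr p : Ix r m)) F) := by
      ext d
      rw [coeff_weightedHomogeneousComponent, coeff_map, coeff_map,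
        coeff_weightedHomogeneousComponent]
      split_ifs
      · rfl
      · rw [map_zero]
    rw [h1, aeval_def, aeval_def, eval₂_map, hom_eval₂]
    congr 1
    funext j
    refine Fin.cases ?_ (fun j => ?_) j
    · simp [pt]
    · refine Fin.cases ?_ (fun j => ?_) j
      · simp [pt]
      · simp [pt]

theorem t_NA (hGE : St_GE.{u}) (hSP : St_SP.{u}) : St_NA.{u} := by
  intro T T' _ _ φ r m β hm hN I I' hI hI'
  apply le_antisymm
  · rw [Ideal.map_le_iff_le_comap]
    intro F hF
    rw [Ideal.mem_comap, hI']
    intro i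
    rw [fn_map, (hI F).1 hF i, map_zero]
  · refine hSP T' r m (fun i => φ (β i)) hm I' _ hI' ?_
    obtain ⟨h1, h2, h3⟩ := hGE T r m β hm hN I hI
    refine ⟨fun u hu => ?_, fun u hu => ?_, fun v i hv1 hv2 hv3 => ?_⟩
    · have := Ideal.mem_map_of_mem (MvPolynomial.map φ) (h1 u hu)
      rwa [map_monomial, map_one] at this
    · have := Ideal.mem_map_of_mem (MvPolynomial.map φ) (h2 u hu)
      rwa [map_monomial, map_one] at this
    · have := Ideal.mem_map_of_mem (MvPolynomial.map φ) (h3 v i hv1 hv2 hv3)
      rwa [map_mul, map_add, map_mul, map_mul, map_monomial, map_one, map_X, map_X, map_X,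
        map_C] at this

end Pool.Agent.Y592.FP2
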